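import Mathlib

set_option autoImplicit false

namespace Pool.Agent.Results.MP_9f54b8_an.GeomMeanArea

open Complex Metric Set

/-- The class `Σ`: functions analytic and univalent in `|z| > 1` with a Laurent expansion
`f(z) = z + ∑_{n ≥ 0} b_n z^{-n}`. -/
def IsSigma (f : ℂ → ℂ) : Prop :=
  DifferentiableOn ℂ f {z : ℂ | 1 < ‖z‖} ∧ Set.InjOn f {z : ℂ | 1 < ‖z‖} ∧
    ∃ b : ℕ → ℂ, ∀ z : ℂ, 1 < ‖z‖ → HasSum (fun n => b n * z⁻¹ ^ n) (f z - z)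

/-- `A` is the sequence of coefficients at infinity of the weighted geometric mean
`F(z) = z (f(z)/z)^{1-α} (g(z)/z)^α = z + ∑_{n ≥ 0} A_n z^{-n}`, for `|z|` large. Both quotients tend
to `1` at infinity, so that the principal powers are the branches equal to `1` at infinity. -/
def IsCoeff (α : ℝ) (f g : ℂ → ℂ) (A : ℕ → ℂ) : Prop :=
  ∃ R : ℝ, ∀ z : ℂ, R < ‖z‖ →
    HasSum (fun n => A n * z⁻¹ ^ n)
      (z * (f z / z) ^ (((1 - α : ℝ)) : ℂ) * (g z / z) ^ ((α : ℝ) : ℂ) - z)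

/-- The expansion at the origin of `(Φ(w) - 1) / w`. -/
theorem expand {Φ : ℂ → ℂ} {r : ℝ} (hΦ : DifferentiableOn ℂ Φ (ball 0 r)) (h1 : Φ 0 = 1)
    (w : ℂ) (hw : w ∈ ball (0 : ℂ) r) (hw0 : w ≠ 0) :
    HasSum (fun n : ℕ => ((n + 1).factorial : ℂ)⁻¹ * iteratedDeriv (n + 1) Φ 0 * w ^ n)
      ((Φ w - 1) / w) := by
  have h := Complex.hasSum_taylorSeries_on_ball hΦ hw
  rw [← hasSum_nat_add_iff' 1] at h
  simp only [Finset.range_one, Finset.sum_singleton, Nat.factorial_zero, Nat.cast_one, inv_one,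
    sub_zero, pow_zero, one_smul, iteratedDeriv_zero, h1] at h
  have h2 := h.mul_left w⁻¹
  have e : (Φ w - 1) / w = w⁻¹ * (Φ w - 1) := by rw [div_eq_inv_mul]
  rw [e]
  have hfun : (fun n : ℕ => ((n + 1).factorial : ℂ)⁻¹ * iteratedDeriv (n + 1) Φ 0 * w ^ n) =
      (fun i : ℕ => w⁻¹ * ((i + 1).factorial : ℂ)⁻¹ • w ^ (i + 1) • iteratedDeriv (i + 1) Φ 0) := by
    funext n
    simp only [smul_eq_mul]
    rw [pow_succ]
    field_simp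
  rw [hfun]
  exact h2

/-- The real part of a parameter: `z + 1/z = t` with `t` real, `|t| ≤ 2`, is impossible outside
the closed unit disc. -/
theorem joukowski_ne {z : ℂ} (hz : 1 < ‖z‖) {t : ℝ} (ht : |t| ≤ 2) : z + z⁻¹ ≠ t := by
  intro h
  have hz0 : z ≠ 0 := by
    intro h0; rw [h0, norm_zero] at hz; linarith
  have h1 : z * z - t * z + 1 = 0 := by
    have : z * (z + z⁻¹) = z * t := by rw [h]
    rw [mul_add, mul_inv_cancel₀ hz0] at this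
    linear_combination this
  have hre := congrArg Complex.re h1
  have him := congrArg Complex.im h1
  simp at hre him
  have hn : 1 < z.re * z.re + z.im * z.im := by
    have h2 : 1 < ‖z‖ ^ 2 := by nlinarith
    rw [← Complex.normSq_eq_norm_sq, Complex.normSq_apply] at h2
    exact h2
  have ht' := abs_le.mp ht
  by_cases hy : z.im = 0
  · rw [hy] at hre hn
    have h3 : t * z.re = z.re * z.re + 1 := by nlinarith
    have h4 : (t * z.re) ^ 2 ≤ 4 * (z.re * z.re) := by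
      have : t ^ 2 ≤ 4 := by nlinarith
      nlinarith [mul_self_nonneg z.re]
    rw [h3] at h4
    nlinarith
  · have h3 : t = 2 * z.re := by
      have : z.im * (2 * z.re - t) = 0 := by nlinarith
      rcases mul_eq_zero.mp this with h5 | h5
      · exact absurd h5 hy
      · linarith
    rw [h3] at hre
    nlinarith

/-- If `Y` avoids the real segment `[-c, c]`, then `1 - (c/Y)²` lies in the slit plane. -/
theorem slit_of_avoid {c : ℝ} {Y : ℂ} (hY : ∀ t : ℝ, |t| ≤ c → Y ≠ t) (hc : 0 ≤ c) :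
    Y ≠ 0 ∧ 1 - ((c : ℂ) / Y) ^ 2 ∈ slitPlane := by
  have hY0 : Y ≠ 0 := by
    have := hY 0 (by simpa using hc)
    simpa using this
  refine ⟨hY0, ?_⟩
  by_contra hcon
  rw [Complex.mem_slitPlane_iff, not_or] at hcon
  obtain ⟨h1, h2⟩ := hcon
  push Not at h1 h2
  set Q : ℂ := ((c : ℂ) / Y) ^ 2 with hQ
  have hQim : Q.im = 0 := by simpa using h2
  have hQre : 1 ≤ Q.re := by simpa using h1
  have hQr : Q = (Q.re : ℂ) := by
    apply Complex.ext <;> simp [hQim]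
  have hmul : Q * Y ^ 2 = (c : ℂ) ^ 2 := by
    rw [hQ, div_pow, div_mul_cancel₀ _ (pow_ne_zero 2 hY0)]
  rw [hQr] at hmul
  have hre := congrArg Complex.re hmul
  have him := congrArg Complex.im hmul
  rw [pow_two, pow_two] at hre him
  simp at hre him
  have hpos : 0 < Q.re := by linarith
  have him' : Y.re * Y.im = 0 := by
    rcases him with h | h
    · exact absurd h hpos.ne'
    · linarith
  have hYim : Y.im = 0 := by
    by_contra hne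
    have hYre : Y.re = 0 := by
      rcases mul_eq_zero.mp him' with h | h
      · exact h
      · exact absurd h hne
    rw [hYre] at hre
    have : 0 < Y.im * Y.im := mul_self_pos.mpr hne
    nlinarith
  have hYr : Y = (Y.re : ℂ) := by
    apply Complex.ext <;> simp [hYim]
  refine hY Y.re ?_ hYr
  rw [hYim] at hre
  apply abs_le_of_sq_le_sq _ hc
  nlinarith [mul_self_nonneg Y.re]

/-- `S(Y) = Y √(1 - (c/Y)²)`, a branch of `√(Y² - c²)`. -/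
noncomputable def S (c : ℝ) (Y : ℂ) : ℂ := Y * (1 - ((c : ℂ) / Y) ^ 2) ^ (2⁻¹ : ℂ)

theorem S_sq {c : ℝ} {Y : ℂ} (hY : Y ≠ 0) : S c Y ^ 2 = Y ^ 2 - (c : ℂ) ^ 2 := by
  unfold S
  rw [mul_pow, Complex.cpow_ofNat_inv_pow, mul_sub, div_pow, mul_one, mul_div_cancel₀]
  exact pow_ne_zero 2 hY

/-- The shifted Joukowski function `z + 1/z + d²/2`. -/
noncomputable def Yf (d : ℝ) (z : ℂ) : ℂ := z + z⁻¹ + ((d ^ 2 / 2 : ℝ) : ℂ)

/-- The slit mappings. -/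
noncomputable def q (d : ℝ) (z : ℂ) : ℂ := S (2 - d ^ 2 / 2) (Yf d z) - 2 * (d : ℂ)

theorem Yf_spec {d : ℝ} (h0 : 0 ≤ d) (h1 : d ≤ 1) {z : ℂ} (hz : 1 < ‖z‖) :
    Yf d z ≠ 0 ∧ 1 - (((2 - d ^ 2 / 2 : ℝ) : ℂ) / Yf d z) ^ 2 ∈ slitPlane := by
  refine slit_of_avoid ?_ (by nlinarith)
  intro t ht h
  unfold Yf at h
  refine joukowski_ne hz (t := t - d ^ 2 / 2) ?_ ?_
  · rw [abs_le] at ht ⊢
    constructor <;> nlinarith
  · rw [Complex.ofReal_sub, ← h]; ring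

theorem Yf_inj {d : ℝ} {z₁ z₂ : ℂ} (h₁ : 1 < ‖z₁‖) (h₂ : 1 < ‖z₂‖) (h : Yf d z₁ = Yf d z₂) :
    z₁ = z₂ := by
  have hz1 : z₁ ≠ 0 := by
    intro h0; rw [h0, norm_zero] at h₁; linarith
  have hz2 : z₂ ≠ 0 := by
    intro h0; rw [h0, norm_zero] at h₂; linarith
  unfold Yf at h
  have h3 : z₁ + z₁⁻¹ = z₂ + z₂⁻¹ := by linear_combination h
  have h4 : (z₁ - z₂) * (z₁ * z₂ - 1) = 0 := by
    field_simp at h3
    linear_combination h3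
  rcases mul_eq_zero.mp h4 with h5 | h5
  · exact sub_eq_zero.mp h5
  · exfalso
    have h6 : z₁ * z₂ = 1 := sub_eq_zero.mp h5
    have h7 := congrArg norm h6
    rw [norm_mul, norm_one] at h7
    nlinarith

theorem q_inj {d : ℝ} (h0 : 0 ≤ d) (h1 : d ≤ 1) : Set.InjOn (q d) {z : ℂ | 1 < ‖z‖} := by
  intro z₁ hz₁ z₂ hz₂ h
  have hz₁' : 1 < ‖z₁‖ := hz₁
  have hz₂' : 1 < ‖z₂‖ := hz₂
  obtain ⟨a1, a2⟩ := Yf_spec h0 h1 hz₁'
  obtain ⟨b1, b2⟩ := Yf_spec h0 h1 hz₂'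
  apply Yf_inj (d := d) hz₁' hz₂'
  have hS : S (2 - d ^ 2 / 2) (Yf d z₁) = S (2 - d ^ 2 / 2) (Yf d z₂) := by
    unfold q at h
    linear_combination h
  have hsq : Yf d z₁ ^ 2 = Yf d z₂ ^ 2 := by
    have e1 := S_sq (c := 2 - d ^ 2 / 2) a1
    have e2 := S_sq (c := 2 - d ^ 2 / 2) b1
    rw [hS, e2] at e1
    linear_combination -e1
  have hrad : (((2 - d ^ 2 / 2 : ℝ) : ℂ) / Yf d z₁) ^ 2 =
      (((2 - d ^ 2 / 2 : ℝ) : ℂ) / Yf d z₂) ^ 2 := by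
    rw [div_pow, div_pow, hsq]
  unfold S at hS
  rw [hrad] at hS
  refine mul_right_cancel₀ ?_ hS
  rw [Ne, Complex.cpow_eq_zero_iff, not_and_or]
  left
  exact Complex.slitPlane_ne_zero b2

theorem q_ne_zero {d : ℝ} (h0 : 0 ≤ d) (h1 : d ≤ 1) {z : ℂ} (hz : 1 < ‖z‖) : q d z ≠ 0 := by
  intro h
  obtain ⟨a1, a2⟩ := Yf_spec h0 h1 hz
  have hS : S (2 - d ^ 2 / 2) (Yf d z) = 2 * (d : ℂ) := by
    unfold q at h
    linear_combination h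
  have hsq : Yf d z ^ 2 = ((2 + d ^ 2 / 2 : ℝ) : ℂ) ^ 2 := by
    have e1 := S_sq (c := 2 - d ^ 2 / 2) a1
    rw [hS] at e1
    push_cast at e1 ⊢
    linear_combination -e1
  rcases sq_eq_sq_iff_eq_or_eq_neg.mp hsq with h2 | h2
  · refine joukowski_ne hz (t := 2) (by norm_num) ?_
    unfold Yf at h2
    push_cast at h2 ⊢
    linear_combination h2
  · set y : ℝ := 2 + d ^ 2 / 2 with hy
    set c : ℝ := 2 - d ^ 2 / 2 with hc
    have hypos : 0 < y := by rw [hy]; positivity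
    have hc0 : 0 ≤ c := by rw [hc]; nlinarith
    have hcy : c ≤ y := by rw [hc, hy]; nlinarith [sq_nonneg d]
    have hrad : 1 - ((c : ℂ) / Yf d z) ^ 2 = ((1 - (c / y) ^ 2 : ℝ) : ℂ) := by
      rw [h2]; push_cast; ring
    have hnn : 0 ≤ 1 - (c / y) ^ 2 := by
      have : c / y ≤ 1 := (div_le_one hypos).mpr hcy
      have h3 : 0 ≤ c / y := div_nonneg hc0 hypos.le
      nlinarith
    have hne : 1 - (c / y) ^ 2 ≠ 0 := by
      intro h3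
      rw [h3] at hrad
      rw [hrad] at a2
      exact Complex.slitPlane_ne_zero a2 (by simp)
    have hpos : 0 < (1 - (c / y) ^ 2) ^ ((2:ℝ)⁻¹) := Real.rpow_pos_of_pos (lt_of_le_of_ne hnn hne.symm) _
    unfold S at hS
    rw [hrad, h2] at hS
    have e2 : (((1 - (c / y) ^ 2 : ℝ) : ℂ)) ^ (2⁻¹ : ℂ) =
        (((1 - (c / y) ^ 2) ^ ((2:ℝ)⁻¹) : ℝ) : ℂ) := by
      rw [Complex.ofReal_cpow hnn]; norm_num
    rw [e2] at hS
    have hre := congrArg Complex.re hS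
    simp only [Complex.mul_re, Complex.neg_re, Complex.ofReal_re, Complex.neg_im,
      Complex.ofReal_im, mul_zero, sub_zero] at hre
    simp at hre
    nlinarith [mul_pos hypos hpos]

/-- The polynomial `1 + (d²/2) w + w²`. -/
noncomputable def P (d : ℝ) (w : ℂ) : ℂ := 1 + ((d ^ 2 / 2 : ℝ) : ℂ) * w + w ^ 2

/-- The square root part in the variable at infinity. -/
noncomputable def Rf (d : ℝ) (w : ℂ) : ℂ :=
  P d w * (1 - (((2 - d ^ 2 / 2 : ℝ) : ℂ) * w / P d w) ^ 2) ^ (2⁻¹ : ℂ)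

/-- The function `q_d(z)/z` in the variable `w = 1/z`. -/
noncomputable def Phi (d : ℝ) (w : ℂ) : ℂ := Rf d w - 2 * (d : ℂ) * w

theorem Yf_eq {d : ℝ} {z : ℂ} (hz : z ≠ 0) : Yf d z = z * P d z⁻¹ := by
  unfold Yf P
  field_simp
  ring

theorem q_eq {d : ℝ} {z : ℂ} (hz : z ≠ 0) : q d z = z * Phi d z⁻¹ := by
  unfold q Phi S Rf
  rw [Yf_eq hz]
  have e : ((2 - d ^ 2 / 2 : ℝ) : ℂ) / (z * P d z⁻¹) =
      ((2 - d ^ 2 / 2 : ℝ) : ℂ) * z⁻¹ / P d z⁻¹ := by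
    rw [div_mul_eq_div_div, div_eq_mul_inv _ z]
  rw [e]
  field_simp

theorem P_spec {d : ℝ} (h0 : 0 ≤ d) (h1 : d ≤ 1) {w : ℂ} (hw : w ∈ ball (0 : ℂ) 1) :
    P d w ≠ 0 ∧ 1 - (((2 - d ^ 2 / 2 : ℝ) : ℂ) * w / P d w) ^ 2 ∈ slitPlane := by
  by_cases hw0 : w = 0
  · subst hw0
    constructor
    · simp [P]
    · simp [P]
  · have hz : 1 < ‖w⁻¹‖ := by
      rw [norm_inv]
      rw [mem_ball_zero_iff] at hw
      exact (one_lt_inv₀ (norm_pos_iff.mpr hw0)).mpr hw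
    obtain ⟨a1, a2⟩ := Yf_spec h0 h1 hz
    have hw' : w⁻¹ ≠ 0 := inv_ne_zero hw0
    rw [Yf_eq hw', inv_inv] at a1 a2
    refine ⟨right_ne_zero_of_mul a1, ?_⟩
    have e : ((2 - d ^ 2 / 2 : ℝ) : ℂ) / (w⁻¹ * P d w) =
        ((2 - d ^ 2 / 2 : ℝ) : ℂ) * w / P d w := by
      rw [div_mul_eq_div_div, div_inv_eq_mul]
    rw [e] at a2
    exact a2

theorem hasDerivAt_sq (w : ℂ) : HasDerivAt (fun w : ℂ => w ^ 2) (2 * w) w := by
  have h := (hasDerivAt_id w).mul (hasDerivAt_id w)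
  have e : (fun w : ℂ => w ^ 2) = (id * id : ℂ → ℂ) := by
    funext v; simp [pow_two]
  rw [e, two_mul]
  simpa using h

theorem hasDerivAt_sq_comp {f : ℂ → ℂ} {f' w : ℂ} (hf : HasDerivAt f f' w) :
    HasDerivAt (fun w => f w ^ 2) (2 * f w * f') w :=
  (hasDerivAt_sq (f w)).comp w hf

theorem hasDerivAt_P (d : ℝ) (w : ℂ) :
    HasDerivAt (P d) (((d ^ 2 / 2 : ℝ) : ℂ) + 2 * w) w := by
  unfold P
  have h1 : HasDerivAt (fun w : ℂ => (1 : ℂ) + ((d ^ 2 / 2 : ℝ) : ℂ) * w)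
      (((d ^ 2 / 2 : ℝ) : ℂ)) w := by
    have h3 := ((hasDerivAt_id w).const_mul ((d ^ 2 / 2 : ℝ) : ℂ)).const_add 1
    rw [mul_one] at h3
    exact h3
  have h2 : HasDerivAt (fun w : ℂ => w ^ 2) (2 * w) w := hasDerivAt_sq w
  exact h1.add h2

theorem Rf_differentiableAt {d : ℝ} (h0 : 0 ≤ d) (h1 : d ≤ 1) {w : ℂ}
    (hw : w ∈ ball (0 : ℂ) 1) : DifferentiableAt ℂ (Rf d) w := by
  obtain ⟨a1, a2⟩ := P_spec h0 h1 hw
  have hP : DifferentiableAt ℂ (P d) w := (hasDerivAt_P d w).differentiableAt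
  unfold Rf
  refine hP.mul ?_
  refine DifferentiableAt.cpow_const ?_ a2
  exact ((((differentiableAt_id.const_mul _).div hP a1)).pow 2).const_sub 1

theorem Rf_sq {d : ℝ} (h0 : 0 ≤ d) (h1 : d ≤ 1) {w : ℂ} (hw : w ∈ ball (0 : ℂ) 1) :
    Rf d w ^ 2 = P d w ^ 2 - ((2 - d ^ 2 / 2 : ℝ) : ℂ) ^ 2 * w ^ 2 := by
  obtain ⟨a1, a2⟩ := P_spec h0 h1 hw
  unfold Rf
  rw [mul_pow, Complex.cpow_ofNat_inv_pow, mul_sub, div_pow, mul_one, mul_div_cancel₀ _ (pow_ne_zero 2 a1)]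
  ring

theorem Rf_ne_zero {d : ℝ} (h0 : 0 ≤ d) (h1 : d ≤ 1) {w : ℂ} (hw : w ∈ ball (0 : ℂ) 1) :
    Rf d w ≠ 0 := by
  obtain ⟨a1, a2⟩ := P_spec h0 h1 hw
  unfold Rf
  refine mul_ne_zero a1 ?_
  rw [Ne, Complex.cpow_eq_zero_iff, not_and_or]
  left
  exact Complex.slitPlane_ne_zero a2

/-- The derivative of `Phi`. -/
noncomputable def phi (d : ℝ) (w : ℂ) : ℂ :=
  (P d w * (((d ^ 2 / 2 : ℝ) : ℂ) + 2 * w) - ((2 - d ^ 2 / 2 : ℝ) : ℂ) ^ 2 * w) / Rf d w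
    - 2 * (d : ℂ)

theorem hasDerivAt_Rf {d : ℝ} (h0 : 0 ≤ d) (h1 : d ≤ 1) {w : ℂ} (hw : w ∈ ball (0 : ℂ) 1) :
    HasDerivAt (Rf d) ((P d w * (((d ^ 2 / 2 : ℝ) : ℂ) + 2 * w) -
      ((2 - d ^ 2 / 2 : ℝ) : ℂ) ^ 2 * w) / Rf d w) w := by
  have hR := (Rf_differentiableAt h0 h1 hw).hasDerivAt
  have hne := Rf_ne_zero h0 h1 hw
  have e1 : HasDerivAt (fun w => Rf d w ^ 2) (2 * Rf d w * deriv (Rf d) w) w :=
    hasDerivAt_sq_comp hR
  have e2 : HasDerivAt (fun w => P d w ^ 2 - ((2 - d ^ 2 / 2 : ℝ) : ℂ) ^ 2 * w ^ 2)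
      (2 * P d w * (((d ^ 2 / 2 : ℝ) : ℂ) + 2 * w) - ((2 - d ^ 2 / 2 : ℝ) : ℂ) ^ 2 * (2 * w)) w := by
    have h2 : HasDerivAt (fun w : ℂ => w ^ 2) (2 * w) w := hasDerivAt_sq w
    have h3 : HasDerivAt (fun w => P d w ^ 2)
        (2 * P d w * (((d ^ 2 / 2 : ℝ) : ℂ) + 2 * w)) w :=
      hasDerivAt_sq_comp (hasDerivAt_P d w)
    exact h3.sub (h2.const_mul _)
  have e3 : (fun w => Rf d w ^ 2) =ᶠ[nhds w]
      (fun w => P d w ^ 2 - ((2 - d ^ 2 / 2 : ℝ) : ℂ) ^ 2 * w ^ 2) := by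
    filter_upwards [isOpen_ball.mem_nhds hw] with v hv
    exact Rf_sq h0 h1 hv
  have e4 := (e2.congr_of_eventuallyEq e3).unique e1
  have e5 : (P d w * (((d ^ 2 / 2 : ℝ) : ℂ) + 2 * w) -
      ((2 - d ^ 2 / 2 : ℝ) : ℂ) ^ 2 * w) / Rf d w = deriv (Rf d) w := by
    rw [div_eq_iff hne]
    linear_combination e4 / 2
  rw [e5]
  exact hR

theorem hasDerivAt_Phi {d : ℝ} (h0 : 0 ≤ d) (h1 : d ≤ 1) {w : ℂ} (hw : w ∈ ball (0 : ℂ) 1) :
    HasDerivAt (Phi d) (phi d w) w := by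
  unfold Phi phi
  have h2 : HasDerivAt (fun w : ℂ => 2 * (d : ℂ) * w) (2 * (d : ℂ)) w := by
    simpa using (hasDerivAt_id w).const_mul (2 * (d : ℂ))
  exact (hasDerivAt_Rf h0 h1 hw).sub h2

theorem P_zero (d : ℝ) : P d 0 = 1 := by simp [P]

theorem Rf_zero (d : ℝ) : Rf d 0 = 1 := by simp [Rf, P_zero]

theorem Phi_zero (d : ℝ) : Phi d 0 = 1 := by simp [Phi, Rf_zero]

theorem phi_zero (d : ℝ) : phi d 0 = ((d ^ 2 / 2 - 2 * d : ℝ) : ℂ) := by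
  simp [phi, Rf_zero, P_zero]

theorem zero_mem : (0 : ℂ) ∈ ball (0 : ℂ) 1 := by simp

theorem hasDerivAt_phi_zero {d : ℝ} (h0 : 0 ≤ d) (h1 : d ≤ 1) :
    HasDerivAt (phi d) (2 - ((2 - d ^ 2 / 2 : ℝ) : ℂ) ^ 2) 0 := by
  have hR := hasDerivAt_Rf h0 h1 zero_mem
  have hP := hasDerivAt_P d 0
  have h2 : HasDerivAt (fun w : ℂ => ((d ^ 2 / 2 : ℝ) : ℂ) + 2 * w) 2 0 := by
    simpa using ((hasDerivAt_id (0 : ℂ)).const_mul (2 : ℂ)).const_add ((d ^ 2 / 2 : ℝ) : ℂ)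
  have h3 : HasDerivAt (fun w : ℂ => ((2 - d ^ 2 / 2 : ℝ) : ℂ) ^ 2 * w)
      (((2 - d ^ 2 / 2 : ℝ) : ℂ) ^ 2) 0 := by
    have h := (hasDerivAt_id (0 : ℂ)).const_mul (((2 - d ^ 2 / 2 : ℝ) : ℂ) ^ 2)
    rw [mul_one] at h
    exact h
  have h4 := (((hP.mul h2).sub h3).div hR (by rw [Rf_zero]; exact one_ne_zero)).sub_const (2 * (d : ℂ))
  have e : (2 - ((2 - d ^ 2 / 2 : ℝ) : ℂ) ^ 2) =
      ((((((d ^ 2 / 2 : ℝ) : ℂ) + 2 * 0) * (((d ^ 2 / 2 : ℝ) : ℂ) + 2 * 0) + P d 0 * 2 -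
      ((2 - d ^ 2 / 2 : ℝ) : ℂ) ^ 2) * Rf d 0 -
      (P d 0 * (((d ^ 2 / 2 : ℝ) : ℂ) + 2 * 0) - ((2 - d ^ 2 / 2 : ℝ) : ℂ) ^ 2 * 0) *
      ((P d 0 * (((d ^ 2 / 2 : ℝ) : ℂ) + 2 * 0) -
      ((2 - d ^ 2 / 2 : ℝ) : ℂ) ^ 2 * 0) / Rf d 0)) / Rf d 0 ^ 2) := by
    rw [Rf_zero, P_zero]; ring
  rw [e]
  exact h4

/-- A function of the form `z Φ(1/z)` has a Laurent expansion of the right kind. -/
theorem expansion_of {Φ f : ℂ → ℂ} (hΦ : DifferentiableOn ℂ Φ (ball 0 1)) (h1 : Φ 0 = 1)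
    (hf : ∀ z : ℂ, z ≠ 0 → f z = z * Φ z⁻¹) :
    ∃ b : ℕ → ℂ, ∀ z : ℂ, 1 < ‖z‖ → HasSum (fun n => b n * z⁻¹ ^ n) (f z - z) := by
  refine ⟨fun n => ((n + 1).factorial : ℂ)⁻¹ * iteratedDeriv (n + 1) Φ 0, fun z hz => ?_⟩
  have hz0 : z ≠ 0 := by
    intro h0; rw [h0, norm_zero] at hz; linarith
  have hw : z⁻¹ ∈ ball (0 : ℂ) 1 := by
    rw [mem_ball_zero_iff, norm_inv]
    exact inv_lt_one_of_one_lt₀ hz
  have h := expand hΦ h1 z⁻¹ hw (inv_ne_zero hz0)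
  have e : f z - z = (Φ z⁻¹ - 1) / z⁻¹ := by
    rw [hf z hz0, div_inv_eq_mul]; ring
  rw [e]
  exact h

theorem q_sigma {d : ℝ} (h0 : 0 ≤ d) (h1 : d ≤ 1) : IsSigma (q d) := by
  refine ⟨?_, q_inj h0 h1, ?_⟩
  · intro z hz
    have hz' : 1 < ‖z‖ := hz
    have hz0 : z ≠ 0 := by
      intro h; rw [h, norm_zero] at hz'; linarith
    have hw : z⁻¹ ∈ ball (0 : ℂ) 1 := by
      rw [mem_ball_zero_iff, norm_inv]
      exact inv_lt_one_of_one_lt₀ hz'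
    have hd : DifferentiableAt ℂ (fun z => z * Phi d z⁻¹) z :=
      differentiableAt_id.mul
        ((hasDerivAt_Phi h0 h1 hw).differentiableAt.comp z (differentiableAt_inv hz0))
    refine DifferentiableAt.differentiableWithinAt ?_
    refine hd.congr_of_eventuallyEq ?_
    filter_upwards [isOpen_ne.mem_nhds hz0] with v hv
    exact q_eq hv
  · refine expansion_of (Φ := Phi d) ?_ (Phi_zero d) (fun z hz => q_eq hz)
    intro w hw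
    exact (hasDerivAt_Phi h0 h1 hw).differentiableAt.differentiableWithinAt

/-- The reflected function `-f(-z)`. -/
theorem neg_sigma {f : ℂ → ℂ} (hf : IsSigma f) : IsSigma (fun z => -f (-z)) := by
  obtain ⟨h1, h2, b, hb⟩ := hf
  refine ⟨?_, ?_, fun n => -(-1) ^ n * b n, ?_⟩
  · refine DifferentiableOn.neg ?_
    refine h1.comp (differentiable_neg.differentiableOn) ?_
    intro z hz
    change 1 < ‖-z‖
    rw [norm_neg]; exact hz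
  · intro z hz w hw h
    have h3 : f (-z) = f (-w) := by simpa using h
    have := h2 (show 1 < ‖-z‖ by rw [norm_neg]; exact hz) (show 1 < ‖-w‖ by rw [norm_neg]; exact hw) h3
    simpa using this
  · intro z hz
    have h3 := (hb (-z) (by rw [norm_neg]; exact hz)).neg
    have e : -(f (-z) - -z) = -f (-z) - z := by ring
    rw [e] at h3
    have hfun : (fun n => -(-1) ^ n * b n * z⁻¹ ^ n) = (fun n => -(b n * (-z)⁻¹ ^ n)) := by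
      funext n
      rw [inv_neg, neg_pow z⁻¹ n]
      ring
    rw [hfun]
    exact h3

/-- The first coefficients of the weighted geometric mean. -/
theorem coeff_mean {a : ℝ} {Φ₁ Φ₂ φ₁ φ₂ f g : ℂ → ℂ} {γ₁ γ₂ δ₁ δ₂ : ℂ}
    (h1 : ∀ w ∈ ball (0 : ℂ) 1, HasDerivAt Φ₁ (φ₁ w) w)
    (h2 : ∀ w ∈ ball (0 : ℂ) 1, HasDerivAt Φ₂ (φ₂ w) w)
    (e1 : Φ₁ 0 = 1) (e2 : Φ₂ 0 = 1) (g1 : φ₁ 0 = γ₁) (g2 : φ₂ 0 = γ₂)
    (k1 : HasDerivAt φ₁ δ₁ 0) (k2 : HasDerivAt φ₂ δ₂ 0)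
    (hf : ∀ z : ℂ, z ≠ 0 → f z = z * Φ₁ z⁻¹) (hg : ∀ z : ℂ, z ≠ 0 → g z = z * Φ₂ z⁻¹)
    (hzero : ((1 - a : ℝ) : ℂ) * γ₁ + ((a : ℝ) : ℂ) * γ₂ = 0) :
    ∃ A : ℕ → ℂ, IsCoeff a f g A ∧
      A 1 = (((1 - a : ℝ) : ℂ) * (δ₁ - γ₁ ^ 2) + ((a : ℝ) : ℂ) * (δ₂ - γ₂ ^ 2)) / 2 := by
  set α₁ : ℂ := ((1 - a : ℝ) : ℂ) with hα₁
  set α₂ : ℂ := ((a : ℝ) : ℂ) with hα₂
  have z1 : (0 : ℂ) ∈ ball (0 : ℂ) 1 := zero_mem
  -- a small disc on which both functions are in the slit plane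
  have hc1 : ContinuousAt Φ₁ 0 := (h1 0 z1).continuousAt
  have hc2 : ContinuousAt Φ₂ 0 := (h2 0 z1).continuousAt
  have ev1 : ∀ᶠ w in nhds (0 : ℂ), Φ₁ w ∈ slitPlane :=
    hc1.eventually_mem (isOpen_slitPlane.mem_nhds (by rw [e1]; exact one_mem_slitPlane))
  have ev2 : ∀ᶠ w in nhds (0 : ℂ), Φ₂ w ∈ slitPlane :=
    hc2.eventually_mem (isOpen_slitPlane.mem_nhds (by rw [e2]; exact one_mem_slitPlane))
  obtain ⟨r, hr, hball⟩ := Metric.eventually_nhds_iff_ball.mp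
    ((ev1.and ev2).and (isOpen_ball.mem_nhds z1))
  let Θ : ℂ → ℂ := fun w => Φ₁ w ^ α₁ * Φ₂ w ^ α₂
  let L : ℂ → ℂ := fun w => α₁ * (φ₁ w / Φ₁ w) + α₂ * (φ₂ w / Φ₂ w)
  have hΘ : ∀ w ∈ ball (0 : ℂ) r, HasDerivAt Θ (Θ w * L w) w := by
    intro w hw
    obtain ⟨⟨s1, s2⟩, s3⟩ := hball w hw
    have n1 := Complex.slitPlane_ne_zero s1
    have n2 := Complex.slitPlane_ne_zero s2
    have d1 := (h1 w s3).cpow_const (c := α₁) s1
    have d2 := (h2 w s3).cpow_const (c := α₂) s2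
    have d3 := d1.mul d2
    have e : Θ w * L w = α₁ * Φ₁ w ^ (α₁ - 1) * φ₁ w * Φ₂ w ^ α₂ +
        Φ₁ w ^ α₁ * (α₂ * Φ₂ w ^ (α₂ - 1) * φ₂ w) := by
      simp only [Θ, L]
      rw [Complex.cpow_sub _ _ n1, Complex.cpow_sub _ _ n2, Complex.cpow_one, Complex.cpow_one]
      field_simp
    rw [e]
    exact d3
  have hΘ0 : Θ 0 = 1 := by
    simp only [Θ, e1, e2, Complex.one_cpow, mul_one]
  have hL0 : L 0 = 0 := by
    simp only [L, e1, e2, g1, g2, div_one]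
    exact hzero
  have zr : (0 : ℂ) ∈ ball (0 : ℂ) r := by simpa using hr
  have hLd : HasDerivAt L (α₁ * (δ₁ - γ₁ ^ 2) + α₂ * (δ₂ - γ₂ ^ 2)) 0 := by
    have d1 := (k1.div (h1 0 z1) (by rw [e1]; exact one_ne_zero)).const_mul α₁
    have d2 := (k2.div (h2 0 z1) (by rw [e2]; exact one_ne_zero)).const_mul α₂
    have d3 := d1.add d2
    have e : α₁ * (δ₁ - γ₁ ^ 2) + α₂ * (δ₂ - γ₂ ^ 2) =
        α₁ * ((δ₁ * Φ₁ 0 - φ₁ 0 * φ₁ 0) / Φ₁ 0 ^ 2) +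
        α₂ * ((δ₂ * Φ₂ 0 - φ₂ 0 * φ₂ 0) / Φ₂ 0 ^ 2) := by
      rw [e1, e2, g1, g2]; ring
    rw [e]
    exact d3
  have hdiff : DifferentiableOn ℂ Θ (ball 0 r) := fun w hw =>
    (hΘ w hw).differentiableAt.differentiableWithinAt
  have hsecond : iteratedDeriv 2 Θ 0 = α₁ * (δ₁ - γ₁ ^ 2) + α₂ * (δ₂ - γ₂ ^ 2) := by
    have hev : deriv Θ =ᶠ[nhds 0] fun w => Θ w * L w := by
      filter_upwards [isOpen_ball.mem_nhds zr] with w hw
      exact (hΘ w hw).deriv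
    have h3 : iteratedDeriv 2 Θ 0 = deriv (deriv Θ) 0 := by
      rw [iteratedDeriv_succ, iteratedDeriv_one]
    rw [h3, hev.deriv_eq]
    have h4 := ((hΘ 0 zr).mul hLd).deriv
    have h5 : (fun w => Θ w * L w) = Θ * L := rfl
    rw [h5, h4, hΘ0, hL0]
    ring
  refine ⟨fun n => ((n + 1).factorial : ℂ)⁻¹ * iteratedDeriv (n + 1) Θ 0, ⟨1 / r, fun z hz => ?_⟩, ?_⟩
  · have hzpos : 0 < ‖z‖ := lt_trans (by positivity) hz
    have hz0 : z ≠ 0 := norm_pos_iff.mp hzpos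
    have hw : z⁻¹ ∈ ball (0 : ℂ) r := by
      rw [mem_ball_zero_iff, norm_inv]
      rw [div_lt_iff₀ hr] at hz
      rw [inv_lt_iff_one_lt_mul₀ hzpos]
      linarith [mul_comm r ‖z‖]
    have h := expand hdiff hΘ0 z⁻¹ hw (inv_ne_zero hz0)
    have e : z * (f z / z) ^ α₁ * (g z / z) ^ α₂ - z = (Θ z⁻¹ - 1) / z⁻¹ := by
      rw [hf z hz0, hg z hz0, mul_div_cancel_left₀ _ hz0, mul_div_cancel_left₀ _ hz0,
        div_inv_eq_mul]
      simp only [Θ]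
      ring
    rw [e]
    exact h
  · change ((1 + 1).factorial : ℂ)⁻¹ * iteratedDeriv 2 Θ 0 = _
    rw [hsecond]
    norm_num
    ring

/-- The value of the logarithmic coefficient. -/
theorem log_coeff (d : ℝ) :
    (2 - ((2 - d ^ 2 / 2 : ℝ) : ℂ) ^ 2) - ((d ^ 2 / 2 - 2 * d : ℝ) : ℂ) ^ 2 =
      ((-2 - 2 * (d * (1 - d / 2)) ^ 2 : ℝ) : ℂ) := by
  push_cast
  ring

theorem main_pair {a : ℝ} {d₁ d₂ : ℝ} (h1 : 0 ≤ d₁) (h1' : d₁ ≤ 1)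
    (h2 : 0 ≤ d₂) (h2' : d₂ ≤ 1)
    (hbal : (1 - a) * (d₁ ^ 2 / 2 - 2 * d₁) = a * (d₂ ^ 2 / 2 - 2 * d₂)) :
    ∃ A : ℕ → ℂ, IsCoeff a (q d₁) (fun z => -q d₂ (-z)) A ∧
      A 1 = ((-1 - (1 - a) * (d₁ * (1 - d₁ / 2)) ^ 2 - a * (d₂ * (1 - d₂ / 2)) ^ 2 : ℝ) : ℂ) := by
  have hneg : ∀ w ∈ ball (0 : ℂ) 1, -w ∈ ball (0 : ℂ) 1 := by
    intro w hw
    rw [mem_ball_zero_iff] at hw ⊢
    rwa [norm_neg]
  have hcomp : ∀ w ∈ ball (0 : ℂ) 1, HasDerivAt (fun w => Phi d₂ (-w)) (-phi d₂ (-w)) w := by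
    intro w hw
    have h := (hasDerivAt_Phi h2 h2' (hneg w hw)).comp w (hasDerivAt_neg w)
    have e : -phi d₂ (-w) = phi d₂ (-w) * -1 := by ring
    rw [e]
    exact h
  have hcomp2 : HasDerivAt (fun w => -phi d₂ (-w)) (2 - ((2 - d₂ ^ 2 / 2 : ℝ) : ℂ) ^ 2) 0 := by
    have h0 : HasDerivAt (phi d₂) (2 - ((2 - d₂ ^ 2 / 2 : ℝ) : ℂ) ^ 2) (-0) := by
      rw [neg_zero]; exact hasDerivAt_phi_zero h2 h2'
    have h := (h0.comp (0 : ℂ) (hasDerivAt_neg (0 : ℂ))).neg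
    have e : (2 - ((2 - d₂ ^ 2 / 2 : ℝ) : ℂ) ^ 2) =
      -((2 - ((2 - d₂ ^ 2 / 2 : ℝ) : ℂ) ^ 2) * -1) := by ring
    rw [e]
    exact h
  obtain ⟨A, hA, hA1⟩ := coeff_mean (a := a) (f := q d₁) (g := fun z => -q d₂ (-z))
    (fun w hw => hasDerivAt_Phi h1 h1' hw) hcomp (Phi_zero d₁) (by simp [Phi_zero])
    (phi_zero d₁) (by rw [neg_zero, phi_zero]) (hasDerivAt_phi_zero h1 h1') hcomp2
    (fun z hz => q_eq hz)
    (by
      intro z hz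
      rw [q_eq (neg_ne_zero.mpr hz), inv_neg]
      ring)
    (by
      have := congrArg (fun x : ℝ => (x : ℂ)) hbal
      simp only [Complex.ofReal_mul] at this
      rw [this]
      ring)
  refine ⟨A, hA, ?_⟩
  rw [hA1, log_coeff]
  have e : (2 - ((2 - d₂ ^ 2 / 2 : ℝ) : ℂ) ^ 2) - (-((d₂ ^ 2 / 2 - 2 * d₂ : ℝ) : ℂ)) ^ 2 =
      ((-2 - 2 * (d₂ * (1 - d₂ / 2)) ^ 2 : ℝ) : ℂ) := by
    rw [neg_sq, log_coeff]
  rw [e]
  push_cast
  ring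

/-- Solving the balance equation. -/
theorem exists_param {t : ℝ} (h0 : 0 ≤ t) (h1 : t ≤ 1) :
    ∃ d : ℝ, 0 ≤ d ∧ d ≤ 1 ∧ d ^ 2 / 2 - 2 * d = -(3 / 2) * t := by
  have hnn : 0 ≤ 4 - 3 * t := by linarith
  have hs := Real.sq_sqrt hnn
  refine ⟨2 - Real.sqrt (4 - 3 * t), ?_, ?_, ?_⟩
  · have : Real.sqrt (4 - 3 * t) ≤ 2 := by
      rw [show (2 : ℝ) = Real.sqrt 4 by
        rw [show (4 : ℝ) = 2 ^ 2 by norm_num]; exact (Real.sqrt_sq (by norm_num)).symm]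
      exact Real.sqrt_le_sqrt (by linarith)
    linarith
  · have : 1 ≤ Real.sqrt (4 - 3 * t) := by
      rw [show (1 : ℝ) = Real.sqrt 1 by simp]
      exact Real.sqrt_le_sqrt (by linarith)
    linarith
  · nlinarith

/-- For every `α ∈ (0,1)` there are two nonvanishing functions of the class `Σ` whose weighted
geometric mean violates the area inequality. -/
theorem result (α : ℝ) (h0 : 0 < α) (h1 : α < 1) :
    ∃ f g : ℂ → ℂ, IsSigma f ∧ IsSigma g ∧ (∀ z : ℂ, 1 < ‖z‖ → f z ≠ 0 ∧ g z ≠ 0) ∧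
      ∃ A : ℕ → ℂ, IsCoeff α f g A ∧
        1 < ∑' n : ℕ, ENNReal.ofReal ((n : ℝ) * ‖A n‖ ^ 2) := by
  obtain ⟨d₁, d₂, h1a, h1b, h2a, h2b, hbal, hpos⟩ : ∃ d₁ d₂ : ℝ, 0 ≤ d₁ ∧ d₁ ≤ 1 ∧ 0 ≤ d₂ ∧ d₂ ≤ 1 ∧
      (1 - α) * (d₁ ^ 2 / 2 - 2 * d₁) = α * (d₂ ^ 2 / 2 - 2 * d₂) ∧
      0 < (1 - α) * (d₁ * (1 - d₁ / 2)) ^ 2 + α * (d₂ * (1 - d₂ / 2)) ^ 2 := by
    rcases le_total α (1 / 2) with h | h
    · obtain ⟨d, hd0, hd1, hd⟩ := exists_param (t := α / (1 - α)) (by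
        apply div_nonneg h0.le; linarith) (by
        rw [div_le_one (by linarith)]; linarith)
      refine ⟨d, 1, hd0, hd1, by norm_num, le_rfl, ?_, ?_⟩
      · rw [hd]
        have : (1 - α) * (α / (1 - α)) = α := by
          rw [mul_div_cancel₀]; linarith
        linear_combination (-(3 / 2)) * this
      · have : 0 ≤ (1 - α) * (d * (1 - d / 2)) ^ 2 := mul_nonneg (by linarith) (sq_nonneg _)
        nlinarith
    · obtain ⟨d, hd0, hd1, hd⟩ := exists_param (t := (1 - α) / α) (by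
        apply div_nonneg _ h0.le; linarith) (by
        rw [div_le_one h0]; linarith)
      refine ⟨1, d, by norm_num, le_rfl, hd0, hd1, ?_, ?_⟩
      · rw [hd]
        have : α * ((1 - α) / α) = 1 - α := by
          rw [mul_div_cancel₀]; linarith
        linear_combination (3 / 2) * this
      · have : 0 ≤ α * (d * (1 - d / 2)) ^ 2 := mul_nonneg (by linarith) (sq_nonneg _)
        nlinarith
  obtain ⟨A, hA, hA1⟩ := main_pair h1a h1b h2a h2b hbal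
  refine ⟨q d₁, fun z => -q d₂ (-z), q_sigma h1a h1b, neg_sigma (q_sigma h2a h2b), ?_, A, hA, ?_⟩
  · intro z hz
    refine ⟨q_ne_zero h1a h1b hz, ?_⟩
    exact neg_ne_zero.mpr (q_ne_zero h2a h2b (by rwa [norm_neg]))
  · refine lt_of_lt_of_le ?_ (ENNReal.le_tsum 1)
    have hn : 1 < ‖A 1‖ := by
      rw [hA1, Complex.norm_real, Real.norm_eq_abs, lt_abs]
      right
      linarith
    rw [Nat.cast_one, one_mul]
    rw [show (1 : ENNReal) = ENNReal.ofReal 1 by simp]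
    rw [ENNReal.ofReal_lt_ofReal_iff (by positivity)]
    nlinarith

end Pool.Agent.Results.MP_9f54b8_an.GeomMeanArea
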